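import Mathlib
import Pool.Agent.H55.Frm

/-! The space of points of a locally temperate frame is locally strongly sober. -/

namespace Pool.Agent.Results.MP_405999_gt.Holds

open Set Filter Topology Pool.Agent.H55.Frm

universe u

/-- the points of a frame: its completely prime filters -/
abbrev Pt (L : Type u) [Order.Frame L] : Type u :=
  {Φ : Set L // IsFil Φ ∧ ∀ S : Set L, sSup S ∈ Φ → ∃ a ∈ S, a ∈ Φ}

/-- the topology of the space of points -/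
@[reducible] def ptTop (L : Type u) [Order.Frame L] : TopologicalSpace (Pt L) :=
  TopologicalSpace.generateFrom {O | ∃ a : L, O = {x : Pt L | a ∈ x.1}}

/-- the limits of an ultrafilter form the empty set or the closure of exactly one point -/
def LocStronglySober (X : Type u) [TopologicalSpace X] : Prop :=
  ∀ 𝒰 : Ultrafilter X, {x | ∀ O : Set X, IsOpen O → x ∈ O → O ∈ 𝒰} = ∅ ∨
    ∃! y : X, {x | ∀ O : Set X, IsOpen O → x ∈ O → O ∈ 𝒰} = closure {y}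

theorem result (L : Type u) [Order.Frame L] (h : LocTemperate L) :
    @LocStronglySober (Pt L) (ptTop L) := by
  let _ := ptTop L
  have hO : ∀ a : L, IsOpen {x : Pt L | a ∈ x.1} := fun a =>
    TopologicalSpace.isOpen_generateFrom_of_mem ⟨a, rfl⟩
  have hle : ∀ (f : Filter (Pt L)) (x : Pt L), f ≤ 𝓝 x ↔ ∀ a ∈ x.1, {z : Pt L | a ∈ z.1} ∈ f :=
    fun f x => by
      have e : 𝓝 x = ⨅ s ∈ {s | x ∈ s ∧ s ∈ {O | ∃ a : L, O = {x : Pt L | a ∈ x.1}}}, 𝓟 s :=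
        TopologicalSpace.nhds_generateFrom
      rw [e]
      simp only [le_iInf_iff, le_principal_iff]
      constructor
      · intro H a ha
        exact H _ ⟨ha, a, rfl⟩
      · rintro H _ ⟨hx, a, rfl⟩
        exact H a hx
  have hcl : ∀ x y : Pt L, x ∈ closure {y} ↔ x.1 ⊆ y.1 := fun x y => by
    rw [← specializes_iff_mem_closure, specializes_iff_pure, hle]
    simp only [mem_pure, mem_setOf_eq]
    rfl
  intro 𝒰
  have hlim : ∀ x : Pt L, (∀ O : Set (Pt L), IsOpen O → x ∈ O → O ∈ 𝒰) ↔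
      ∀ a ∈ x.1, {z : Pt L | a ∈ z.1} ∈ 𝒰 := fun x => by
    refine ⟨fun H a ha => H _ (hO a) ha, fun H O h1 h2 => ?_⟩
    exact (hle 𝒰 x).2 H (h1.mem_nhds h2)
  simp only [hlim]
  rcases eq_empty_or_nonempty {x : Pt L | ∀ a ∈ x.1, {z : Pt L | a ∈ z.1} ∈ 𝒰} with h0 | ⟨x0, hx0⟩
  · exact Or.inl h0
  right
  have hpt : ∀ x : Pt L, ScottOpen x.1 := fun x => ⟨x.2.1.2.1, fun D _ _ hD => x.2.2 D hD⟩
  let G : Set L := {a | {z : Pt L | a ∈ z.1} ∈ 𝒰}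
  have hGi : ∀ a ∈ G, ∀ b ∈ G, a ⊓ b ∈ G := fun a ha b hb =>
    mem_of_superset (inter_mem ha hb) fun z hz => z.2.1.inf hz.1 hz.2
  have hGs : ∀ a b, a ⊔ b ∈ G → a ∈ G ∨ b ∈ G := fun a b hab => by
    refine Ultrafilter.union_mem_iff.1 (mem_of_superset hab fun z hz => ?_)
    obtain ⟨c, hc, hc'⟩ := z.2.2 {a, b} (by rwa [sSup_pair])
    rcases hc with rfl | rfl
    · exact Or.inl hc'
    · exact Or.inr hc'
  have hGb : ⊥ ∉ G := fun hb => by
    obtain ⟨z, hz⟩ := Ultrafilter.nonempty_of_mem hb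
    obtain ⟨c, hc, -⟩ := z.2.2 ∅ (by rwa [sSup_empty])
    exact hc
  let H : Set L := {a | ∃ F : Set L, IsFil F ∧ ScottOpen F ∧ F ⊆ G ∧ a ∈ F}
  have hHf : IsFil H := by
    refine ⟨⟨⊤, x0.1, x0.2.1, hpt x0, hx0, x0.2.1.top⟩, ?_, ?_⟩
    · rintro a b hab ⟨F, h1, h2, h3, h4⟩
      exact ⟨F, h1, h2, h3, h1.2.1 hab h4⟩
    · rintro a ⟨F, h1, h2, h3, h4⟩ b ⟨F', h1', h2', h3', h4'⟩
      have hj := h F F' h1 h2 h1' h2'
      refine ⟨a ⊓ b, ⟨join F F', ⟨⟨_, a, h4, b, h4', rfl⟩, hj.1, ?_⟩, hj, ?_, a, h4, b, h4', rfl⟩,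
        inf_le_left, inf_le_right⟩
      · rintro _ ⟨c, hc, d, hd, rfl⟩ _ ⟨c', hc', d', hd', rfl⟩
        exact ⟨_, ⟨c ⊓ c', h1.inf hc hc', d ⊓ d', h1'.inf hd hd', rfl⟩,
          inf_le_inf inf_le_left inf_le_left, inf_le_inf inf_le_right inf_le_right⟩
      · rintro _ ⟨c, hc, d, hd, rfl⟩
        exact hGi c (h3 hc) d (h3' hd)
  have hHs : ScottOpen H := by
    refine ⟨hHf.2.1, ?_⟩
    rintro D h1 h2 ⟨F, hF1, hF2, hF3, hF4⟩
    obtain ⟨d, hd, hd'⟩ := hF2.2 D h1 h2 hF4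
    exact ⟨d, hd, F, hF1, hF2, hF3, hd'⟩
  have hn : sSup Gᶜ ∉ H := fun hh => by
    obtain ⟨d, hd, F, -, -, h3, h4⟩ := hHs.2 Gᶜ ⟨⊥, hGb⟩ (fun a ha b hb =>
      ⟨a ⊔ b, fun hab => (hGs a b hab).elim ha hb, le_sup_left, le_sup_right⟩) hh
    exact hd (h3 h4)
  obtain ⟨p, hp1, hp2, hp3⟩ := exists_prime hHf hHs hn
  let y : Pt L := ⟨{a | ¬ a ≤ p}, ⟨⟨⊤, fun ht => hp2 (hHf.2.1 ht hHf.top)⟩,
    fun a b hab ha hb => ha (hab.trans hb),
    fun a ha b hb => ⟨a ⊓ b, fun hab => (hp3 a b hab).elim ha hb, inf_le_left, inf_le_right⟩⟩,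
    fun S hS => by
      by_contra hc
      push Not at hc
      exact hS (sSup_le fun a ha => not_not.1 (hc a ha))⟩
  have hyG : y.1 ⊆ G := fun a ha => by
    by_contra hc
    exact ha ((le_sSup hc).trans hp1)
  refine ⟨y, ?_, fun y' hy' => ?_⟩
  · ext x
    rw [hcl]
    refine ⟨fun hx a ha hap => hp2 (hHf.2.1 hap ⟨x.1, x.2.1, hpt x, hx, ha⟩), fun hx a ha => ?_⟩
    exact hyG (hx ha)
  · have h1 : y ∈ closure {y'} := by
      rw [← hy']
      exact hyG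
    have h2 : y' ∈ closure {y'} := subset_closure rfl
    rw [← hy'] at h2
    refine Subtype.ext (subset_antisymm (fun a ha hap => ?_) ((hcl _ _).1 h1))
    exact hp2 (hHf.2.1 hap ⟨y'.1, y'.2.1, hpt y', h2, ha⟩)

end Pool.Agent.Results.MP_405999_gt.Holds
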